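import Mathlib

/-!
# Project FE (helper120), job DENS: densities of random sets of scales (general part)
-/

set_option autoImplicit false

namespace Q299.FE

open Finset MeasureTheory Filter
open scoped Topology ENNReal

/-- Kronecker's lemma for `0 ≤ a ≤ 1`. -/
theorem kron (a : ℕ → ℝ) (h0 : ∀ i, 0 ≤ a i) (hs : Summable fun i : ℕ => a i / i) :
    Tendsto (fun L : ℕ => (∑ i ∈ Icc 1 L, a i) / L) atTop (𝓝 0) := by
  have h1 : Tendsto (fun L : ℕ => ∑' i : ℕ, (if i ∈ Icc 1 L then a i / L else 0)) atTop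
      (𝓝 (∑' _i : ℕ, (0 : ℝ))) := by
    refine tendsto_tsum_of_dominated_convergence (bound := fun i : ℕ => a i / i) hs ?_ ?_
    · intro i
      have h2 : Tendsto (fun L : ℕ => a i / (L : ℝ)) atTop (𝓝 0) :=
        tendsto_const_div_atTop_nhds_zero_nat (a i)
      refine squeeze_zero_norm (fun L => ?_) h2
      split_ifs
      · rw [Real.norm_of_nonneg (div_nonneg (h0 i) (Nat.cast_nonneg _))]
      · rw [norm_zero]
        exact div_nonneg (h0 i) (Nat.cast_nonneg _)
    · refine Eventually.of_forall fun L i => ?_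
      split_ifs with h
      · rw [mem_Icc] at h
        rw [Real.norm_of_nonneg (div_nonneg (h0 i) (Nat.cast_nonneg _))]
        have h2 : (0 : ℝ) < i := by exact_mod_cast h.1
        have h3 : (i : ℝ) ≤ L := by exact_mod_cast h.2
        exact div_le_div_of_nonneg_left (h0 i) h2 h3
      · rw [norm_zero]
        exact div_nonneg (h0 i) (Nat.cast_nonneg _)
  rw [tsum_zero] at h1
  refine h1.congr fun L => ?_
  rw [tsum_eq_sum (s := Icc 1 L) fun i hi => if_neg hi, Finset.sum_div]
  exact Finset.sum_congr rfl fun i hi => if_pos hi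

variable {Ω : Type} [MeasurableSpace Ω] (μ : Measure Ω) [IsProbabilityMeasure μ] (B : ℕ → Set Ω)

omit [MeasurableSpace Ω] in
open Classical in
theorem card_eq_sum (L : ℕ) (ω : Ω) : (((Icc 1 L).filter (fun i => ω ∈ B i)).card : ℝ) =
    ∑ i ∈ Icc 1 L, (B i).indicator (fun _ => (1 : ℝ)) ω := by
  rw [Finset.card_filter]
  push_cast
  refine Finset.sum_congr rfl fun i _ => ?_
  by_cases h : ω ∈ B i
  · simp [h]
  · simp [h]

open Classical in
/-- Markov's inequality. -/
theorem markov (hB : ∀ i, MeasurableSet (B i)) (L : ℕ) (κ : ℝ) (hL : 1 ≤ L) (hκ : 0 < κ) :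
    μ.real {ω | κ * L < (((Icc 1 L).filter (fun i => ω ∈ B i)).card : ℝ)} ≤
      (∑ i ∈ Icc 1 L, μ.real (B i)) / (κ * L) := by
  have hL0 : (0 : ℝ) < L := by exact_mod_cast hL
  have hi : ∀ i, Integrable ((B i).indicator fun _ => (1 : ℝ)) μ := fun i =>
    (integrable_const (1 : ℝ)).indicator (hB i)
  have h1 : Integrable (fun ω => ∑ i ∈ Icc 1 L, (B i).indicator (fun _ => (1 : ℝ)) ω) μ :=
    integrable_finsetSum _ fun i _ => hi i
  have h2 := mul_meas_ge_le_integral_of_nonneg (μ := μ)
    (f := fun ω => ∑ i ∈ Icc 1 L, (B i).indicator (fun _ => (1 : ℝ)) ω)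
    (Eventually.of_forall fun ω => Finset.sum_nonneg fun i _ =>
      Set.indicator_nonneg (fun _ _ => zero_le_one) ω) h1 (κ * L)
  rw [integral_finsetSum _ fun i _ => hi i] at h2
  have h3 : ∀ i, ∫ ω, (B i).indicator (fun _ => (1 : ℝ)) ω ∂μ = μ.real (B i) := by
    intro i
    rw [integral_indicator (hB i)]
    simp
  simp only [h3] at h2
  rw [le_div_iff₀ (by positivity), mul_comm]
  refine le_trans (mul_le_mul_of_nonneg_left ?_ (by positivity)) h2
  apply measureReal_mono
  · intro ω hω
    simp only [Set.mem_ofPred_eq] at hω ⊢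
    rw [← card_eq_sum B L ω]
    exact hω.le
  · exact measure_ne_top _ _

open Classical in
/-- Almost surely density zero. -/
theorem dens (hB : ∀ i, MeasurableSet (B i)) (hs : Summable fun i : ℕ => μ.real (B i) / i) :
    ∀ᵐ ω ∂μ, Tendsto (fun L : ℕ =>
      (((Icc 1 L).filter (fun i => ω ∈ B i)).card : ℝ) / L) atTop (𝓝 0) := by
  have h1 : ∀ i, Measurable fun ω => ENNReal.ofReal ((B i).indicator (fun _ => (1 : ℝ)) ω / i) :=
    fun i => ENNReal.measurable_ofReal.comp
      ((measurable_const.indicator (hB i)).div_const _)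
  have h2 : ∫⁻ ω, ∑' i, ENNReal.ofReal ((B i).indicator (fun _ => (1 : ℝ)) ω / i) ∂μ ≠ ∞ := by
    rw [lintegral_tsum fun i => (h1 i).aemeasurable]
    have h3 : ∀ i : ℕ, ∫⁻ ω, ENNReal.ofReal ((B i).indicator (fun _ => (1 : ℝ)) ω / i) ∂μ =
        ENNReal.ofReal (μ.real (B i) / i) := by
      intro i
      rw [← ofReal_integral_eq_lintegral_ofReal]
      · congr 1
        rw [integral_div, integral_indicator (hB i)]
        simp
      · exact ((integrable_const (1 : ℝ)).indicator (hB i)).div_const _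
      · exact Eventually.of_forall fun ω =>
          div_nonneg (Set.indicator_nonneg (fun _ _ => zero_le_one) ω) (Nat.cast_nonneg _)
    simp only [h3]
    exact hs.tsum_ofReal_ne_top
  have h3 := ae_lt_top (Measurable.ennreal_tsum h1) h2
  filter_upwards [h3] with ω hω
  have h4 := ENNReal.summable_toReal hω.ne
  have h5 : Summable fun i : ℕ => (B i).indicator (fun _ => (1 : ℝ)) ω / i := by
    refine h4.congr fun i => ?_
    rw [ENNReal.toReal_ofReal]
    exact div_nonneg (Set.indicator_nonneg (fun _ _ => zero_le_one) ω) (Nat.cast_nonneg _)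
  have h6 := kron (fun i => (B i).indicator (fun _ => (1 : ℝ)) ω)
    (fun i => Set.indicator_nonneg (fun _ _ => zero_le_one) ω) h5
  refine h6.congr fun L => ?_
  rw [card_eq_sum B L ω]

end Q299.FE
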