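import Pool.Agent.Q120.FE.Stm
import Pool.Agent.Q299.FE.DENS0

/-!
# Project FE (helper120), job DENS: densities of random sets of scales
-/

set_option autoImplicit false

namespace Q299.FE

open Finset MeasureTheory Filter Pool.Agent.Q120.FE
open scoped Topology

theorem t_DENS : J_DENS := by
  intro Ω _ μ _ B hB
  exact ⟨fun L κ hL hκ => markov μ B hB L κ hL hκ, fun hs => dens μ B hB hs⟩

end Q299.FE
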