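import Pool.Agent.Q299.FE.PTAIL

/-!
# Project FE (helper120), job DETF: few bad scales suffice
-/

set_option autoImplicit false

namespace Q299.FE

open Finset MeasureTheory Filter Pool.Agent.Q120.FE Pool.Agent.Q120.ET Pool.Agent.Q120.GM
  Pool.Agent.Q120.TT Pool.Agent.Q120.FZ
open scoped Topology

theorem bi_le {h : Finset ℕ} {x n : ℕ} (hn : n ∈ Icc 1 x) (hj : ∀ j ∈ h, j ≤ x) :
    bi h n ≤ Nat.log 2 x + 1 := by
  rw [mem_Icc] at hn
  unfold bi
  apply Finset.sup_le
  intro j hjh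
  apply Finset.sup_le
  intro p hp
  have h1 : p ≤ n + j := Nat.le_of_mem_primeFactors hp
  have h2 := hj j hjh
  have h3 := Nat.lt_pow_succ_log_self (by norm_num : 1 < 2) x
  have h4 : p < 2 ^ (Nat.log 2 x + 1 + 1) := by
    calc p ≤ 2 * x := by omega
      _ < 2 * 2 ^ (Nat.log 2 x + 1) := by
        have : x < 2 ^ (Nat.log 2 x + 1) := h3
        omega
      _ = 2 ^ (Nat.log 2 x + 1 + 1) := by ring
  have h5 := Nat.log_lt_of_lt_pow (Nat.prime_of_mem_primeFactors hp).ne_zero h4
  omega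

theorem t_DETF : J_DETF := by
  classical
  intro hCH hDEP hTR hSM r Fam hFam ε hε
  obtain ⟨C₁, hC₁, hT⟩ := hTR hCH r
  obtain ⟨C₀, hC₀, hS⟩ := hSM hCH
  obtain ⟨N₀, hN₀⟩ := exists_nat_ge (3 * C₀ / ε)
  obtain ⟨N, hN⟩ : ∃ N, N = N₀ + 1 := ⟨_, rfl⟩
  have hN1 : 1 ≤ N := by omega
  have hNr : (0 : ℝ) < N := by exact_mod_cast hN1
  have hC₀N : C₀ / N ≤ ε / 3 := by
    have h1 : 3 * C₀ / ε ≤ N := hN₀.trans (by exact_mod_cast (by omega : N₀ ≤ N))
    rw [div_le_iff₀ hε] at h1
    rw [div_le_iff₀ hNr]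
    linarith
  refine ⟨3 * N, ε / (12 * N), ε / (12 * N * C₁), by positivity, by positivity, ?_⟩
  filter_upwards [hS N hN1, eventually_ge_atTop (2 ^ (2 * N))] with x hSx hx S hbad q hq
  obtain ⟨L, hL⟩ : ∃ L, L = Nat.log 2 x := ⟨_, rfl⟩
  rw [← hL] at hSx hbad
  have hx1 : 1 ≤ x := (Nat.one_le_two_pow).trans hx
  have hx0 : (0 : ℝ) < x := by exact_mod_cast hx1
  have hL2 : 2 * N ≤ L := by
    rw [hL]
    exact Nat.le_log_of_pow_le (by norm_num) hx
  obtain ⟨i₀, hi₀⟩ : ∃ i₀, i₀ = L / N := ⟨_, rfl⟩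
  rw [← hi₀] at hSx
  have hdm := Nat.div_add_mod L N
  have hml := Nat.mod_lt L (by omega : N > 0)
  rw [← hi₀] at hdm
  have hNi : L + 1 ≤ N * i₀ + N := by omega
  have hi₀1 : 1 ≤ i₀ := by
    by_contra hcon
    have : i₀ = 0 := by omega
    rw [this, Nat.mul_zero] at hNi
    omega
  have hNi2 : L + 1 ≤ 2 * (N * i₀) := by
    have : N ≤ N * i₀ := Nat.le_mul_of_pos_right _ hi₀1
    omega
  have hsh : ∀ j ∈ q.2, j ≤ x := hFam.shift x q hq
  have hw : ∀ n, |q.1 n| ≤ 1 := hFam.weight x q hq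
  have hne := hFam.nonempty x q hq
  have hcard := hFam.card x q hq
  have hf : ∀ n, |q.1 n * cor S q.2 n| ≤ 1 := by
    intro n
    rw [abs_mul]
    exact mul_le_one₀ (hw n) (abs_nonneg _) (hDEP.2.2 S q.2 n)
  -- decomposition
  have hdec : tot q.1 S q.2 x = ∑ n ∈ (Icc 1 x).filter (fun n => bi q.2 n < i₀),
      q.1 n * cor S q.2 n + ∑ i ∈ Icc i₀ (L + 1), part q.1 S q.2 x i := by
    unfold tot
    rw [← Finset.sum_filter_add_sum_filter_not (Icc 1 x) (fun n => bi q.2 n < i₀)]
    congr 1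
    rw [← Finset.sum_fiberwise_of_maps_to (g := fun n => bi q.2 n) (t := Icc i₀ (L + 1))]
    · refine Finset.sum_congr rfl fun i hi => ?_
      unfold part
      rw [Finset.filter_filter]
      refine Finset.sum_congr (Finset.filter_congr fun n _ => ?_) fun _ _ => rfl
      rw [mem_Icc] at hi
      constructor
      · exact fun h => h.2
      · intro h
        exact ⟨by omega, h⟩
    · intro n hn
      rw [mem_filter] at hn
      have := bi_le hn.1 hsh
      rw [mem_Icc, hL]
      omega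
  have hfirst : |∑ n ∈ (Icc 1 x).filter (fun n => bi q.2 n < i₀), q.1 n * cor S q.2 n| ≤
      ε / 3 * x := by
    refine (Finset.abs_sum_le_sum_abs _ _).trans ?_
    have h1 : ∑ n ∈ (Icc 1 x).filter (fun n => bi q.2 n < i₀), |q.1 n * cor S q.2 n| ≤
        ((Icc 1 x).filter (fun n => bi q.2 n < i₀)).card := by
      refine (Finset.sum_le_sum fun n _ => hf n).trans ?_
      rw [Finset.sum_const, nsmul_eq_mul, mul_one]
    refine h1.trans ((hSx q.2 hne hsh).trans ?_)
    exact mul_le_mul_of_nonneg_right hC₀N hx0.le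
  obtain ⟨Y, hY⟩ : ∃ Y : ℝ, Y = 2 * N * x / (L + 1) := ⟨_, rfl⟩
  have hY0 : 0 ≤ Y := by rw [hY]; positivity
  have hL0 : (0 : ℝ) < (L : ℝ) + 1 := by positivity
  have hpart : ∀ i ∈ Icc i₀ (L + 1), |part q.1 S q.2 x i| ≤
      ε / (12 * N) * Y + (if BadF Fam (3 * N) (ε / (12 * N)) i S then C₁ * Y else 0) := by
    intro i hi
    rw [mem_Icc] at hi
    have hi1 : 1 ≤ i := by omega
    have hir : (0 : ℝ) < i := by exact_mod_cast hi1
    have h2i : 2 ^ i ≤ 2 * x := by
      calc 2 ^ i ≤ 2 ^ (L + 1) := Nat.pow_le_pow_right (by norm_num) hi.2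
        _ = 2 * 2 ^ L := by ring
        _ ≤ 2 * x := by
          apply Nat.mul_le_mul_left
          rw [hL]
          exact Nat.pow_log_le_self 2 (by omega)
    have hxi : (x : ℝ) / i ≤ Y := by
      rw [hY, div_le_div_iff₀ hir hL0]
      have h1 : ((L : ℝ) + 1) ≤ 2 * N * i := by
        have : L + 1 ≤ 2 * N * i := by
          calc L + 1 ≤ 2 * (N * i₀) := hNi2
            _ ≤ 2 * (N * i) := by
              apply Nat.mul_le_mul_left
              exact Nat.mul_le_mul_left _ hi.1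
            _ = 2 * N * i := by ring
        exact_mod_cast this
      nlinarith
    split_ifs with hb
    · have h1 : |part q.1 S q.2 x i| ≤ ((Icc 1 x).filter (fun n => bi q.2 n = i)).card := by
        unfold part
        refine (Finset.abs_sum_le_sum_abs _ _).trans ?_
        refine (Finset.sum_le_sum fun n _ => hf n).trans ?_
        rw [Finset.sum_const, nsmul_eq_mul, mul_one]
      have h2 := hT q.2 x i hcard hsh hi1 h2i
      have h3 : C₁ * ((x : ℝ) / i) ≤ C₁ * Y := mul_le_mul_of_nonneg_left hxi hC₁.le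
      have h4 : 0 ≤ ε / (12 * N) * Y := by positivity
      linarith
    · have h1 : |part q.1 S q.2 x i| < ε / (12 * N) * (x / i) := by
        by_contra hcon
        push Not at hcon
        apply hb
        refine ⟨x, h2i, ?_, q, hq, hcon⟩
        have h2 := Nat.lt_pow_succ_log_self (by norm_num : 1 < 2) x
        rw [← hL] at h2
        refine h2.le.trans (Nat.pow_le_pow_right (by norm_num) ?_)
        calc L + 1 ≤ 2 * (N * i₀) := hNi2
          _ ≤ 3 * (N * i) := Nat.mul_le_mul (by norm_num) (Nat.mul_le_mul_left _ hi.1)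
          _ = 3 * N * i := by ring
      have h2 : ε / (12 * N) * ((x : ℝ) / i) ≤ ε / (12 * N) * Y :=
        mul_le_mul_of_nonneg_left hxi (by positivity)
      linarith
  have hsecond : |∑ i ∈ Icc i₀ (L + 1), part q.1 S q.2 x i| ≤ ε / 3 * x := by
    refine (Finset.abs_sum_le_sum_abs _ _).trans ((Finset.sum_le_sum hpart).trans ?_)
    rw [Finset.sum_add_distrib, Finset.sum_const, nsmul_eq_mul, ← Finset.sum_filter,
      Finset.sum_const, nsmul_eq_mul]
    have h1 : ((Icc i₀ (L + 1)).card : ℝ) ≤ L + 1 := by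
      have : (Icc i₀ (L + 1)).card ≤ L + 1 := by
        rw [Nat.card_Icc]
        omega
      exact_mod_cast this
    have h2 : (((Icc i₀ (L + 1)).filter fun i => BadF Fam (3 * N) (ε / (12 * N)) i S).card : ℝ) ≤
        ε / (12 * N * C₁) * (L + 1) := by
      refine le_trans ?_ hbad
      have : ((Icc i₀ (L + 1)).filter fun i => BadF Fam (3 * N) (ε / (12 * N)) i S).card ≤
          ((Icc 1 (L + 1)).filter fun i => BadF Fam (3 * N) (ε / (12 * N)) i S).card := by
        apply card_le_card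
        apply filter_subset_filter
        exact Icc_subset_Icc_left hi₀1
      exact_mod_cast this
    calc _ ≤ ((L : ℝ) + 1) * (ε / (12 * N) * Y) + ε / (12 * N * C₁) * (L + 1) * (C₁ * Y) := by
          gcongr
      _ = ε / 3 * x := by
          rw [hY]
          field_simp
          ring
  rw [hdec]
  refine (abs_add_le _ _).trans ?_
  have : 0 ≤ ε * x := by positivity
  linarith

end Q299.FE
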