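import Pool.Agent.Q299.FE.TRIVF

/-!
# Project FE (helper120), job PTAIL: the tail of a part
-/

set_option autoImplicit false

namespace Q299.FE

open Finset MeasureTheory Filter Pool.Agent.Q120.FE Pool.Agent.Q120.ET Pool.Agent.Q120.GM
  Pool.Agent.Q120.TT Pool.Agent.Q120.FZ
open scoped Topology

theorem mem_pl {k p : ℕ} : p ∈ pl k ↔ p < 2 ^ k ∧ p.Prime := by
  unfold pl
  rw [mem_filter, mem_range]

theorem pb_pos {i : ℕ} (hi : 1 ≤ i) : 0 < (pb i).card := by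
  rw [card_pos]
  obtain ⟨p, hp, h1, h2⟩ := Nat.exists_prime_lt_and_le_two_mul (2 ^ i) (by positivity)
  refine ⟨p, mem_pb.2 ⟨⟨h1.le, ?_⟩, hp⟩⟩
  have h3 : 2 * 2 ^ i = 2 ^ (i + 1) := by ring
  rw [h3] at h2
  refine lt_of_le_of_ne h2 fun h4 => ?_
  rw [h4, ← h3] at hp
  have h5 : 2 ^ i ≠ 1 := by
    have : 2 ^ 1 ≤ 2 ^ i := Nat.pow_le_pow_right (by norm_num) hi
    omega
  exact Nat.not_prime_mul (by norm_num) h5 hp

theorem t_PTAIL : J_PTAIL := by
  classical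
  rintro ⟨K, hK, hpb⟩ hM ⟨-, hdep, -⟩ hA r
  refine ⟨1 / (18 * K * (r + 1) ^ 2), by positivity, ?_⟩
  intro w h x i u hw hr hx hi h2 hu
  have hi0 : (0 : ℝ) < i := by exact_mod_cast hi
  have h2i : (0 : ℝ) < 2 ^ i := by positivity
  have h7 : (2 : ℝ) ^ i ≤ 2 * x := by exact_mod_cast h2
  have hx0 : (0 : ℝ) < x := by
    by_contra hcon
    push Not at hcon
    linarith
  have hp0 : (0 : ℝ) < (pb i).card := by exact_mod_cast pb_pos hi
  set c : ℝ := 3 * (r + 1) * x / 2 ^ i with hc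
  have hc0 : 0 < c := by positivity
  have h6 : (x : ℝ) / 2 ^ i + 1 ≤ 3 * x / 2 ^ i := by
    rw [div_add_one h2i.ne', div_le_div_iff_of_pos_right h2i]
    linarith
  have hsub : pb i ⊆ pl (i + 1) := by
    intro p hp
    rw [mem_pb] at hp
    exact mem_pl.2 ⟨hp.1.2, hp.2⟩
  have key := hM (pl (i + 1)) (pb i) hsub (fun T => part w ((T : Finset ℕ) : Set ℕ) h x i) c
    (9 * (r + 1) ^ 2 * (x : ℝ) * (Nat.log 2 x + 1) / 2 ^ i) u hc0 ?_ ?_ hu
  · refine key.trans ?_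
    apply mul_le_mul_of_nonneg_left _ (by norm_num)
    apply Real.exp_le_exp.2
    apply neg_le_neg
    have h8 : 2 * c ^ 2 * (pb i).card ≤ 18 * K * (r + 1) ^ 2 * x ^ 2 / (i * 2 ^ i) := by
      calc 2 * c ^ 2 * (pb i).card ≤ 2 * c ^ 2 * (K * (2 ^ i / i)) := by
            have := hpb i hi
            gcongr
        _ = 18 * K * (r + 1) ^ 2 * x ^ 2 / (i * 2 ^ i) := by
            rw [hc]
            field_simp
            ring
    calc 1 / (18 * K * (r + 1) ^ 2) * u ^ 2 * i * 2 ^ i / x ^ 2 =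
        u ^ 2 / (18 * K * (r + 1) ^ 2 * x ^ 2 / (i * 2 ^ i)) := by field_simp
      _ ≤ u ^ 2 / (2 * c ^ 2 * (pb i).card) := by
          apply div_le_div_of_nonneg_left (sq_nonneg _) (by positivity) h8
  · intro T _ p hp
    have h9 := hdep w ((T : Finset ℕ) : Set ℕ) h r x i p hw hr hp
    rw [← Finset.coe_insert, ← Finset.coe_erase] at h9
    refine h9.trans ?_
    apply mul_le_mul_of_nonneg_left _ (by norm_num)
    calc (r : ℝ) * ((x : ℝ) / 2 ^ i + 1) ≤ (r + 1) * (3 * x / 2 ^ i) := by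
          gcongr
          linarith
      _ = c := by rw [hc]; ring
  · intro T₀ hT₀
    refine hA w h r x i hw hr hx hi h2 T₀ ?_
    intro p hp
    have h9 := (@Finset.mem_sdiff ℕ _ _ _ _).1 (hT₀ hp)
    rw [mem_pl, mem_pb] at h9
    rw [mem_pl]
    refine ⟨?_, h9.1.2⟩
    by_contra hcon
    exact h9.2 ⟨⟨not_lt.1 hcon, h9.1.1⟩, h9.1.2⟩

end Q299.FE
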