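import Pool.Agent.Q299.FE.PTAIL

/-!
# Project FE (helper120), job SMOOTHF: numbers without large prime factors
-/

set_option autoImplicit false

namespace Q299.FE

open Finset MeasureTheory Filter Pool.Agent.Q120.FE Pool.Agent.Q120.ET Pool.Agent.Q120.GM
  Pool.Agent.Q120.TT Pool.Agent.Q120.FZ
open scoped Topology

/-- The sum of the exponents of a prime in an interval. -/
theorem sum_val (p j x T : ℕ) (hp : p.Prime) (hj : j ≤ x) (hT : 2 * x < 2 ^ (T + 1)) :
    ∑ n ∈ Icc 1 x, ((n + j).factorization p : ℝ) ≤ 2 * x / p + T := by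
  have hp2 : (2 : ℝ) ≤ p := by exact_mod_cast hp.two_le
  have hp0 : (0 : ℝ) < p := by linarith
  have h1 : ∀ n ∈ Icc 1 x, ((n + j).factorization p : ℝ) ≤
      ∑ e ∈ Icc 1 T, (if p ^ e ∣ n + j then (1 : ℝ) else 0) := by
    intro n hn
    rw [mem_Icc] at hn
    rw [Nat.factorization_eq_card_pow_dvd _ hp, ← Finset.sum_filter, Finset.sum_const,
      nsmul_eq_mul, mul_one]
    have h2 : ((Ico 1 (n + j)).filter fun i => p ^ i ∣ n + j) ⊆
        (Icc 1 T).filter fun i => p ^ i ∣ n + j := by
      intro e he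
      rw [mem_filter, mem_Ico] at he
      rw [mem_filter, mem_Icc]
      refine ⟨⟨he.1.1, ?_⟩, he.2⟩
      have h3 : 2 ^ e ≤ n + j := (Nat.pow_le_pow_left hp.two_le e).trans
        (Nat.le_of_dvd (by omega) he.2)
      have h4 : 2 ^ e < 2 ^ (T + 1) := by omega
      have := (Nat.pow_lt_pow_iff_right (by norm_num : 1 < 2)).1 h4
      omega
    exact_mod_cast card_le_card h2
  refine (Finset.sum_le_sum h1).trans ?_
  rw [Finset.sum_comm]
  have h2 : ∀ e ∈ Icc 1 T, ∑ n ∈ Icc 1 x, (if p ^ e ∣ n + j then (1 : ℝ) else 0) ≤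
      x / p * (1 / 2) ^ (e - 1) + 1 := by
    intro e he
    rw [mem_Icc] at he
    rw [← Finset.sum_filter, Finset.sum_const, nsmul_eq_mul, mul_one]
    have h3 := card_mult (p ^ e) j x (pow_pos hp.pos e)
    have h4 : ((((Icc 1 x).filter fun n => p ^ e ∣ n + j).card : ℕ) : ℝ) ≤
        ((x / p ^ e : ℕ) : ℝ) + 1 := by exact_mod_cast h3
    refine h4.trans ?_
    have h5 : (((x / p ^ e : ℕ) : ℝ)) ≤ (x : ℝ) / (p : ℝ) ^ e := by
      have := Nat.cast_div_le (α := ℝ) (m := x) (n := p ^ e)
      push_cast at this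
      exact this
    have h6 : (x : ℝ) / (p : ℝ) ^ e ≤ x / p * (1 / 2) ^ (e - 1) := by
      obtain ⟨f, rfl⟩ : ∃ f, e = f + 1 := ⟨e - 1, by omega⟩
      rw [Nat.add_sub_cancel, pow_succ, one_div, inv_pow, ← div_eq_mul_inv, div_div]
      apply div_le_div_of_nonneg_left (Nat.cast_nonneg _) (by positivity)
      rw [mul_comm]
      apply mul_le_mul_of_nonneg_right _ hp0.le
      exact pow_le_pow_left₀ (by norm_num) hp2 f
    linarith
  refine (Finset.sum_le_sum h2).trans ?_
  rw [Finset.sum_add_distrib, ← Finset.mul_sum, Finset.sum_const, Nat.card_Icc, nsmul_eq_mul,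
    mul_one, Nat.add_sub_cancel]
  have h3 : ∑ e ∈ Icc 1 T, (1 / 2 : ℝ) ^ (e - 1) ≤ 2 := by
    have h4 : ∑ e ∈ Icc 1 T, (1 / 2 : ℝ) ^ (e - 1) = ∑ e ∈ range T, (1 / 2 : ℝ) ^ e := by
      have h5 : Icc 1 T = (range T).map (addLeftEmbedding 1) := by
        rw [Finset.range_eq_Ico, Finset.map_add_left_Ico]
        ext e
        rw [mem_Icc, mem_Ico]
        omega
      rw [h5, Finset.sum_map]
      refine Finset.sum_congr rfl fun e _ => ?_
      rw [addLeftEmbedding_apply, Nat.add_sub_cancel_left]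
    rw [h4]
    exact sum_geometric_two_le T
  have h4 : 0 ≤ (x : ℝ) / p := by positivity
  have h5 : (x : ℝ) / p * ∑ e ∈ Icc 1 T, (1 / 2 : ℝ) ^ (e - 1) ≤ x / p * 2 :=
    mul_le_mul_of_nonneg_left h3 h4
  have h6 : 2 * (x : ℝ) / p = x / p * 2 := by ring
  linarith

/-- Sum over the primes below `2 ^ i₀`. -/
theorem sum_primes {K : ℝ} (hK : 0 < K) (hpb : ∀ i : ℕ, 1 ≤ i → ((pb i).card : ℝ) ≤ K * (2 ^ i / i))
    (i₀ x T : ℕ) : ∑ p ∈ pl i₀, Real.log p * (2 * x / p + T) ≤
      4 * K * i₀ * x + 2 * K * 2 ^ i₀ * T := by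
  induction i₀ with
  | zero =>
    have : pl 0 = ∅ := by
      rw [← not_nonempty_iff_eq_empty]
      rintro ⟨p, hp⟩
      rw [mem_pl] at hp
      have := hp.2.two_le
      omega
    rw [this]
    simp
    positivity
  | succ i ih =>
    have h1 : pl (i + 1) = pl i ∪ pb i := by
      ext p
      rw [mem_union, mem_pl, mem_pl, mem_pb]
      constructor
      · rintro ⟨a, b⟩
        by_cases h : p < 2 ^ i
        · exact Or.inl ⟨h, b⟩
        · exact Or.inr ⟨⟨not_lt.1 h, a⟩, b⟩
      · rintro (⟨a, b⟩ | ⟨a, b⟩)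
        · exact ⟨a.trans_le (Nat.pow_le_pow_right (by norm_num) (by omega)), b⟩
        · exact ⟨a.2, b⟩
    have h2 : Disjoint (pl i) (pb i) := by
      rw [Finset.disjoint_left]
      intro p hp hp'
      rw [mem_pl] at hp
      rw [mem_pb] at hp'
      omega
    rw [h1, Finset.sum_union h2]
    have h3 : ∑ p ∈ pb i, Real.log p * (2 * x / p + T) ≤ 4 * K * x + 2 * K * 2 ^ i * T := by
      rcases Nat.eq_zero_or_pos i with hi | hi
      · subst hi
        have : pb 0 = ∅ := by
          rw [← not_nonempty_iff_eq_empty]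
          rintro ⟨p, hp⟩
          rw [mem_pb] at hp
          have := hp.2.two_le
          omega
        rw [this, Finset.sum_empty]
        positivity
      · have hi0 : (0 : ℝ) < i := by exact_mod_cast hi
        have hi1 : (1 : ℝ) ≤ i := by exact_mod_cast hi
        have h2i : (0 : ℝ) < 2 ^ i := by positivity
        have h4 : ∀ p ∈ pb i, Real.log p * (2 * x / p + T) ≤ 2 * i * (2 * x / 2 ^ i + T) := by
          intro p hp
          rw [mem_pb] at hp
          have hp0 : (0 : ℝ) < p := by exact_mod_cast hp.2.pos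
          have h5 : Real.log p ≤ 2 * i := by
            have h6 : (p : ℝ) ≤ 2 ^ (i + 1) := by exact_mod_cast hp.1.2.le
            have h7 := Real.log_le_log hp0 h6
            rw [Real.log_pow] at h7
            have h8 : Real.log 2 ≤ 1 := by
              have := Real.log_two_lt_d9
              linarith
            push_cast at h7
            nlinarith
          have h9 : 2 * (x : ℝ) / p ≤ 2 * x / 2 ^ i := by
            apply div_le_div_of_nonneg_left (by positivity) h2i
            exact_mod_cast hp.1.1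
          have h10 : 0 ≤ Real.log p := Real.log_natCast_nonneg p
          gcongr
        refine (Finset.sum_le_sum h4).trans ?_
        rw [Finset.sum_const, nsmul_eq_mul]
        calc ((pb i).card : ℝ) * (2 * i * (2 * x / 2 ^ i + T)) ≤
            K * (2 ^ i / i) * (2 * i * (2 * x / 2 ^ i + T)) :=
              mul_le_mul_of_nonneg_right (hpb i hi) (by positivity)
          _ = 4 * K * x + 2 * K * 2 ^ i * T := by
              field_simp
              ring
    push_cast
    have h4 : (2 : ℝ) ^ (i + 1) = 2 ^ i + 2 ^ i := by ring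
    rw [h4]
    linarith

theorem t_SMOOTHF : J_SMOOTHF := by
  rintro ⟨K, hK, hpb⟩
  refine ⟨16 * K + 1, by positivity, ?_⟩
  intro N hN
  rcases Nat.eq_or_lt_of_le hN with hN1 | hN2
  · -- `N = 1`
    refine Eventually.of_forall fun x h _ _ => ?_
    rw [← hN1]
    have h1 : (((Icc 1 x).filter (fun n => bi h n < Nat.log 2 x / 1)).card : ℝ) ≤ x := by
      have := card_filter_le (Icc 1 x) (fun n => bi h n < Nat.log 2 x / 1)
      rw [Nat.card_Icc, Nat.add_sub_cancel] at this
      exact_mod_cast this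
    refine h1.trans ?_
    have hx0 : (0 : ℝ) ≤ x := Nat.cast_nonneg x
    rw [Nat.cast_one, div_one]
    nlinarith
  · have hNr : (0 : ℝ) < N := by exact_mod_cast (by omega : 0 < N)
    obtain ⟨X, hX⟩ := exists_nat_ge (((N : ℝ) * (1 + 12 * K)) ^ 2)
    filter_upwards [eventually_ge_atTop (max X 3)] with x hx h hne hj
    have hxX : X ≤ x := (le_max_left _ _).trans hx
    have hx3 : 3 ≤ x := (le_max_right _ _).trans hx
    have hx0 : (0 : ℝ) < x := by exact_mod_cast (by omega : 0 < x)
    have hx3r : (3 : ℝ) ≤ x := by exact_mod_cast hx3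
    have hlog1 : 1 ≤ Real.log x := by
      have h1 : Real.exp 1 ≤ x := by
        have := Real.exp_one_lt_d9
        linarith
      have := Real.log_le_log (Real.exp_pos 1) h1
      rwa [Real.log_exp] at this
    obtain ⟨j, hjh⟩ := hne
    have hjx := hj j hjh
    set Lg := Nat.log 2 x with hLg
    set i₀ := Lg / N with hi₀
    set S := (Icc 1 x).filter (fun n => bi h n < i₀) with hS
    -- logarithms
    have hlog2 : (1 : ℝ) / 2 ≤ Real.log 2 := by
      have := Real.log_two_gt_d9
      linarith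
    have h2L : (2 : ℝ) ^ Lg ≤ x := by
      exact_mod_cast Nat.pow_log_le_self 2 (by omega : x ≠ 0)
    have hLlog : (Lg : ℝ) ≤ 2 * Real.log x := by
      have h1 := Real.log_le_log (by positivity) h2L
      rw [Real.log_pow] at h1
      have h2 : 0 ≤ (Lg : ℝ) := Nat.cast_nonneg _
      nlinarith
    have hi₀L : (i₀ : ℝ) ≤ Lg / N := Nat.cast_div_le
    have hi₀log : (i₀ : ℝ) ≤ 2 * Real.log x / N := by
      refine hi₀L.trans ?_
      exact div_le_div_of_nonneg_right hLlog hNr.le
    -- smooth numbers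
    have hsm : ∀ n ∈ S, (n + j).primeFactors ⊆ pl i₀ := by
      intro n hn p hp
      rw [hS, mem_filter] at hn
      have h1 : Nat.log 2 p ≤ bi h n := by
        unfold bi
        refine le_trans ?_ (Finset.le_sup (f := fun j => (n + j).primeFactors.sup (Nat.log 2)) hjh)
        exact Finset.le_sup (f := Nat.log 2) hp
      rw [mem_pl]
      refine ⟨?_, Nat.prime_of_mem_primeFactors hp⟩
      have h2 := Nat.lt_pow_succ_log_self (by norm_num : 1 < 2) p
      refine h2.trans_le (Nat.pow_le_pow_right (by norm_num) ?_)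
      have := hn.2
      omega
    have hlogn : ∀ n ∈ S, Real.log (n + j : ℕ) =
        ∑ p ∈ pl i₀, ((n + j).factorization p : ℝ) * Real.log p := by
      intro n hn
      rw [Real.log_nat_eq_sum_factorization, Finsupp.sum, Nat.support_factorization]
      apply Finset.sum_subset (hsm n hn)
      intro p _ hp
      have : (n + j).factorization p = 0 := by
        rw [← Finsupp.notMem_support_iff, Nat.support_factorization]
        exact hp
      rw [this]
      simp
    have hT : 2 * x < 2 ^ (Lg + 1 + 1) := by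
      have := Nat.lt_pow_succ_log_self (by norm_num : 1 < 2) x
      rw [← hLg] at this
      calc 2 * x < 2 * 2 ^ (Lg + 1) := by omega
        _ = 2 ^ (Lg + 1 + 1) := by ring
    have hsum : ∑ n ∈ S, Real.log (n + j : ℕ) ≤
        4 * K * i₀ * x + 2 * K * 2 ^ i₀ * ((Lg + 1 : ℕ) : ℝ) := by
      rw [Finset.sum_congr rfl hlogn, Finset.sum_comm]
      refine le_trans ?_ (sum_primes hK hpb i₀ x (Lg + 1))
      refine Finset.sum_le_sum fun p hp => ?_
      rw [← Finset.sum_mul, mul_comm]
      apply mul_le_mul_of_nonneg_left _ (Real.log_natCast_nonneg p)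
      refine le_trans ?_ (sum_val p j x (Lg + 1) (mem_pl.1 hp).2 hjx hT)
      exact Finset.sum_le_sum_of_subset_of_nonneg (filter_subset _ _)
        fun n _ _ => Nat.cast_nonneg _
    -- small numbers
    have hcnt : (S.card : ℝ) * (Real.log x / 2) ≤
        ∑ n ∈ S, Real.log (n + j : ℕ) + √x * (Real.log x / 2) := by
      have h1 : ∀ n ∈ S, Real.log x / 2 ≤ Real.log (n + j : ℕ) +
          (if n ≤ Nat.sqrt x then Real.log x / 2 else 0) := by
        intro n hn
        rw [hS, mem_filter, mem_Icc] at hn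
        have h2 : (1 : ℝ) ≤ ((n + j : ℕ) : ℝ) := by exact_mod_cast (by omega : 1 ≤ n + j)
        split_ifs with h3
        · have := Real.log_nonneg h2
          linarith
        · have h4 : x < (n + j) ^ 2 := by
            rw [not_le, Nat.sqrt_lt'] at h3
            calc x < n ^ 2 := h3
              _ ≤ (n + j) ^ 2 := Nat.pow_le_pow_left (by omega) 2
          have h5 : (x : ℝ) ≤ ((n + j : ℕ) : ℝ) ^ 2 := by exact_mod_cast h4.le
          have h6 := Real.log_le_log hx0 h5
          rw [Real.log_pow] at h6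
          push_cast at h6 ⊢
          linarith
      have h2 : ∑ n ∈ S, Real.log x / 2 ≤ ∑ n ∈ S, (Real.log (n + j : ℕ) +
          (if n ≤ Nat.sqrt x then Real.log x / 2 else 0)) := Finset.sum_le_sum h1
      rw [Finset.sum_const, nsmul_eq_mul, Finset.sum_add_distrib] at h2
      refine h2.trans ?_
      apply add_le_add le_rfl
      rw [← Finset.sum_filter, Finset.sum_const, nsmul_eq_mul]
      apply mul_le_mul_of_nonneg_right _ (by linarith)
      have h3 : (S.filter fun n => n ≤ Nat.sqrt x) ⊆ Icc 1 (Nat.sqrt x) := by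
        intro n hn
        rw [mem_filter, hS, mem_filter, mem_Icc] at hn
        rw [mem_Icc]
        omega
      have h4 := card_le_card h3
      rw [Nat.card_Icc, Nat.add_sub_cancel] at h4
      have h5 : ((S.filter fun n => n ≤ Nat.sqrt x).card : ℝ) ≤ (Nat.sqrt x : ℝ) := by
        exact_mod_cast h4
      exact h5.trans (Real.nat_sqrt_le_real_sqrt)
    -- the power of two
    have h2i : (2 : ℝ) ^ i₀ ≤ √x := by
      apply Real.le_sqrt_of_sq_le
      rw [← pow_mul]
      refine le_trans ?_ h2L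
      apply pow_le_pow_right₀ (by norm_num)
      calc i₀ * 2 ≤ i₀ * N := Nat.mul_le_mul_left _ hN2
        _ ≤ Lg := Nat.div_mul_le_self _ _
    have hsq : (N : ℝ) * (1 + 12 * K) ≤ √x := by
      apply Real.le_sqrt_of_sq_le
      exact hX.trans (by exact_mod_cast hxX)
    have hsq0 : 0 < √(x : ℝ) := Real.sqrt_pos.2 hx0
    have hsqx : √(x : ℝ) * √x = x := Real.mul_self_sqrt hx0.le
    -- conclusion
    have hlog0 : 0 < Real.log x := by linarith
    have hfin : (S.card : ℝ) ≤ √x + 2 * (4 * K * i₀ * x + 2 * K * 2 ^ i₀ *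
        ((Lg + 1 : ℕ) : ℝ)) / Real.log x := by
      rw [← sub_le_iff_le_add', le_div_iff₀ hlog0]
      nlinarith
    have hA : 2 * (4 * K * i₀ * x) / Real.log x ≤ 16 * K * (x / N) := by
      rw [div_le_iff₀ hlog0]
      calc 2 * (4 * K * i₀ * x) ≤ 2 * (4 * K * (2 * Real.log x / N) * x) := by gcongr
        _ = 16 * K * (x / N) * Real.log x := by ring
    have hB : 2 * (2 * K * 2 ^ i₀ * ((Lg + 1 : ℕ) : ℝ)) / Real.log x ≤ 12 * K * √x := by
      rw [div_le_iff₀ hlog0]
      have h1 : ((Lg + 1 : ℕ) : ℝ) ≤ 3 * Real.log x := by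
        push_cast
        linarith
      calc 2 * (2 * K * 2 ^ i₀ * ((Lg + 1 : ℕ) : ℝ)) ≤ 2 * (2 * K * √x * (3 * Real.log x)) := by
            gcongr
        _ = 12 * K * √x * Real.log x := by ring
    have hC : √x * (1 + 12 * K) ≤ x / N := by
      rw [le_div_iff₀ hNr]
      nlinarith
    calc (S.card : ℝ) ≤ _ := hfin
      _ = √x + (2 * (4 * K * i₀ * x) / Real.log x +
          2 * (2 * K * 2 ^ i₀ * ((Lg + 1 : ℕ) : ℝ)) / Real.log x) := by ring
      _ ≤ √x + (16 * K * (x / N) + 12 * K * √x) := by linarith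
      _ ≤ 16 * K * (x / N) + x / N := by linarith
      _ = (16 * K + 1) / N * x := by ring

end Q299.FE
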