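import Pool.Agent.Q120.FE.Stm

/-!
# Project FE (helper120), job TRIVF: the trivial bound for a part
-/

set_option autoImplicit false

namespace Q299.FE

open Finset MeasureTheory Filter Pool.Agent.Q120.FE Pool.Agent.Q120.ET Pool.Agent.Q120.GM
  Pool.Agent.Q120.TT Pool.Agent.Q120.FZ
open scoped Topology

/-- Multiples of `p` in an interval. -/
theorem card_mult (p j x : ℕ) (hp : 0 < p) :
    ((Icc 1 x).filter fun n => p ∣ n + j).card ≤ x / p + 1 := by
  have h1 : ((Icc 1 x).filter fun n => p ∣ n + j).card ≤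
      (Icc (j / p + 1) ((x + j) / p)).card := by
    apply card_le_card_of_injOn (fun n => (n + j) / p)
    · intro n hn
      rw [mem_coe, mem_filter, mem_Icc] at hn
      rw [mem_coe, mem_Icc]
      obtain ⟨⟨h1, h2⟩, k, hk⟩ := hn
      change j / p + 1 ≤ (n + j) / p ∧ (n + j) / p ≤ (x + j) / p
      refine ⟨?_, Nat.div_le_div_right (by omega)⟩
      rw [hk, Nat.mul_div_cancel_left _ hp]
      have h3 : j < p * k := by omega
      exact Nat.div_lt_of_lt_mul h3
    · intro n hn n' hn' h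
      rw [mem_coe, mem_filter] at hn hn'
      obtain ⟨k, hk⟩ := hn.2
      obtain ⟨k', hk'⟩ := hn'.2
      simp only at h
      rw [hk, hk', Nat.mul_div_cancel_left _ hp, Nat.mul_div_cancel_left _ hp] at h
      subst h
      omega
  refine h1.trans ?_
  rw [Nat.card_Icc]
  have h2 : (x + j) / p ≤ x / p + j / p + 1 := by
    rw [Nat.add_div hp]
    split_ifs <;> omega
  generalize (x + j) / p = a at *
  generalize x / p = b at *
  generalize j / p = c at *
  omega

theorem mem_pb {i p : ℕ} : p ∈ pb i ↔ (2 ^ i ≤ p ∧ p < 2 ^ (i + 1)) ∧ p.Prime := by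
  unfold pb block
  rw [mem_filter, mem_Ico]

/-- A number in the part has a prime factor in the block. -/
theorem exists_prime {h : Finset ℕ} {n i : ℕ} (hi : 1 ≤ i) (hn : bi h n = i) :
    ∃ j ∈ h, ∃ p ∈ pb i, p ∣ n + j := by
  unfold bi at hn
  have hne : h.Nonempty := by
    by_contra hcon
    rw [not_nonempty_iff_eq_empty] at hcon
    rw [hcon, Finset.sup_empty] at hn
    simp at hn
    omega
  obtain ⟨j, hj, hj2⟩ := Finset.exists_mem_eq_sup h hne
    (fun j => (n + j).primeFactors.sup (Nat.log 2))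
  rw [hj2] at hn
  have hne2 : ((n + j).primeFactors).Nonempty := by
    by_contra hcon
    rw [not_nonempty_iff_eq_empty] at hcon
    rw [hcon, Finset.sup_empty] at hn
    simp at hn
    omega
  obtain ⟨p, hp, hp2⟩ := Finset.exists_mem_eq_sup _ hne2 (Nat.log 2)
  rw [hp2] at hn
  have hpp := Nat.prime_of_mem_primeFactors hp
  refine ⟨j, hj, p, mem_pb.2 ⟨⟨?_, ?_⟩, hpp⟩, Nat.dvd_of_mem_primeFactors hp⟩
  · rw [← hn]
    exact Nat.pow_log_le_self 2 hpp.ne_zero
  · rw [← hn]
    exact Nat.lt_pow_succ_log_self (by norm_num) p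

theorem t_TRIVF : J_TRIVF := by
  rintro ⟨K, hK, hpb⟩ r
  refine ⟨3 * r * K + 1, by positivity, ?_⟩
  intro h x i hr hx hi h2
  have hi0 : (0 : ℝ) < i := by exact_mod_cast hi
  have h2i : (0 : ℝ) < 2 ^ i := by positivity
  have hsub : (Icc 1 x).filter (fun n => bi h n = i) ⊆
      h.biUnion fun j => (pb i).biUnion fun p => (Icc 1 x).filter fun n => p ∣ n + j := by
    intro n hn
    rw [mem_filter] at hn
    obtain ⟨j, hj, p, hp, hpd⟩ := exists_prime hi hn.2
    rw [mem_biUnion]
    refine ⟨j, hj, ?_⟩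
    rw [mem_biUnion]
    exact ⟨p, hp, mem_filter.2 ⟨hn.1, hpd⟩⟩
  have h1 : ((Icc 1 x).filter (fun n => bi h n = i)).card ≤ r * ((pb i).card * (x / 2 ^ i + 1)) := by
    refine (card_le_card hsub).trans ?_
    refine (card_biUnion_le_card_mul _ _ ((pb i).card * (x / 2 ^ i + 1)) fun j hj => ?_).trans
      (Nat.mul_le_mul_right _ hr)
    refine card_biUnion_le_card_mul _ _ (x / 2 ^ i + 1) fun p hp => ?_
    have hp' := (mem_pb.1 hp).1.1
    refine (card_mult p j x (lt_of_lt_of_le (by positivity) hp')).trans ?_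
    have : x / p ≤ x / 2 ^ i := Nat.div_le_div_left hp' (by positivity)
    omega
  have h3 : ((((Icc 1 x).filter (fun n => bi h n = i)).card : ℕ) : ℝ) ≤
      r * ((pb i).card * ((x : ℝ) / 2 ^ i + 1)) := by
    have h4 : (((x / 2 ^ i : ℕ) : ℝ)) ≤ (x : ℝ) / 2 ^ i := by
      have := Nat.cast_div_le (α := ℝ) (m := x) (n := 2 ^ i)
      push_cast at this
      exact this
    have h5 : ((((Icc 1 x).filter (fun n => bi h n = i)).card : ℕ) : ℝ) ≤
        r * ((pb i).card * (((x / 2 ^ i : ℕ) : ℝ) + 1)) := by exact_mod_cast h1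
    refine h5.trans ?_
    gcongr
  have h6 : (x : ℝ) / 2 ^ i + 1 ≤ 3 * x / 2 ^ i := by
    have h7 : (2 : ℝ) ^ i ≤ 2 * x := by exact_mod_cast h2
    rw [div_add_one h2i.ne', div_le_div_iff_of_pos_right h2i]
    linarith
  calc _ ≤ _ := h3
    _ ≤ r * (K * (2 ^ i / i) * (3 * x / 2 ^ i)) := by
        have := hpb i hi
        gcongr
    _ = 3 * r * K * (x / i) := by field_simp
    _ ≤ (3 * r * K + 1) * (x / i) := by
        have : 0 ≤ (x : ℝ) / i := by positivity
        linarith

end Q299.FE
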